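import Mathlib

set_option autoImplicit false

/-! Definitions for MP_e7d137_lc: marginal scenarios, polymatroids, partial polymatroids,
Vorob'ev-regular scenarios. -/

namespace Pool.Agent.Q307.MSc

/-- A marginal scenario on `{0, ..., n-1}`: a family of subsets, closed under taking subsets, which
contains the empty set. -/
structure IsScenario {n : ℕ} (M : Set (Finset (Fin n))) : Prop where
  empty_mem : ∅ ∈ M
  down_closed : ∀ S ∈ M, ∀ T : Finset (Fin n), T ⊆ S → T ∈ M

/-- A facet: an inclusion-maximal member. -/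
def IsFacet {n : ℕ} (M : Set (Finset (Fin n))) (F : Finset (Fin n)) : Prop :=
  F ∈ M ∧ ∀ G ∈ M, F ⊆ G → G = F

/-- A polymatroid on `{0, ..., n-1}`. -/
structure IsPolymatroid {n : ℕ} (f : Finset (Fin n) → ℝ) : Prop where
  empty : f ∅ = 0
  nonneg : ∀ S, 0 ≤ f S
  mono : ∀ S T, S ⊆ T → f S ≤ f T
  submod : ∀ S T, f (S ∪ T) + f (S ∩ T) ≤ f S + f T

/-- A partial polymatroid on the scenario `M` (only the values on members of `M` matter). -/
structure IsPartialPolymatroid {n : ℕ} (M : Set (Finset (Fin n))) (g : Finset (Fin n) → ℝ) :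
    Prop where
  empty : g ∅ = 0
  nonneg : ∀ S ∈ M, 0 ≤ g S
  mono : ∀ S ∈ M, ∀ T ∈ M, S ⊆ T → g S ≤ g T
  submod : ∀ S ∈ M, ∀ T ∈ M, S ∪ T ∈ M → g (S ∪ T) + g (S ∩ T) ≤ g S + g T

/-- `g` is non-contextual on `M`: it is the restriction to `M` of some polymatroid. -/
def NonContextual {n : ℕ} (M : Set (Finset (Fin n))) (g : Finset (Fin n) → ℝ) : Prop :=
  ∃ f : Finset (Fin n) → ℝ, IsPolymatroid f ∧ ∀ S ∈ M, f S = g S

/-- `M` is Vorob'ev-regular: its facets can be listed (without repetition) as `F 0, ..., F (k-1)`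
so that for every `j ≥ 1` the set `F j ∩ (F 0 ∪ ... ∪ F (j-1))` is contained in some `F i` with
`i < j`. -/
def VorobevRegular {n : ℕ} (M : Set (Finset (Fin n))) : Prop :=
  ∃ (k : ℕ) (F : Fin k → Finset (Fin n)), Function.Injective F ∧
    (∀ S, IsFacet M S ↔ ∃ i, F i = S) ∧
    ∀ j : Fin k, 0 < (j : ℕ) → ∃ i < j, ∀ x ∈ F j, (∃ l < j, x ∈ F l) → x ∈ F i

end Pool.Agent.Q307.MSc
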